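import Pool.Agent.Run7.h918.Alpha

/-!
# The alpha invariant of smooth Fano complete intersections of ample divisors in toric varieties

Let `X` be a smooth Fano variety which is a complete intersection `V(g_1, ..., g_s)^ss / H` in
homogeneous (Cox) coordinates of a projective toric variety `Z`, of any Picard number and possibly
singular, such that the classes of all `g_j` are ample on `Z`. Then `α(X) ≤ 1`.
-/

set_option autoImplicit false

namespace Pool.Agent.Results.MP_ae084c_ag.AmpleCompleteIntersection

open Pool.Agent.Helper774.KSing Pool.Agent.Run7.H918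

/-- A smooth Fano complete intersection `X = V(g_1, ..., g_s)^ss / H` of ample divisors in a
projective toric variety, in homogeneous coordinates, satisfies `α(X) ≤ 1`. (A variety with such a
presentation is automatically smooth, and `-K_X` is the ample class `u`.) -/
theorem result (X : Variety) (hX : 1 ≤ X.dim) {ρ r s : ℕ} (D : CoxData ρ r s) (hD : D.IsGood)
    (P : D.Presentation X) (hamp : ∀ j, D.Ample (D.μ j)) : X.alpha ≤ 1 := by
  have hr : 0 < r := by
    have := P.dim
    omega
  have hρ : 0 < ρ := by
    obtain ⟨ψ, hψ⟩ := hD.pointed
    rcases Nat.eq_zero_or_pos ρ with h | h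
    · subst h
      have h1 := hψ ⟨0, hr⟩
      rw [Subsingleton.elim (D.w ⟨0, hr⟩) 0, map_zero] at h1
      exact absurd h1 (lt_irrefl _)
    · exact h
  obtain ⟨i, m, a, hm, hma, hsum⟩ := D.exists_ample hD hr hρ hamp
  exact P.alpha_le_one hD i m a hm hma hsum

end Pool.Agent.Results.MP_ae084c_ag.AmpleCompleteIntersection
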