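import Pool.Agent.Run7.h918.Alpha
import Pool.Agent.Run7.h918.Two

/-!
# The alpha invariant of smooth Fano complete intersections with class group of rank two

Let `X = V(g_1, ..., g_s)^ss / H` be a smooth Fano complete intersection in homogeneous (Cox)
coordinates of a projective toric variety with class group `ℤ²`, possibly singular, in arbitrary
position. If `dim X ≥ 2 s - 3` (for instance if `s ≤ 2`), then `α(X) ≤ 1`.
-/

set_option autoImplicit false

namespace Pool.Agent.Results.MP_ae084c_ag.ClassGroupRankTwo

open Pool.Agent.Helper774.KSing Pool.Agent.Run7.H918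

/-- A smooth Fano complete intersection `X = V(g_1, ..., g_s)^ss / H` in homogeneous coordinates of a
projective toric variety with class group `ℤ²` satisfies `α(X) ≤ 1` if `dim X ≥ 2 s - 3`. -/
theorem result (X : Variety) {r s : ℕ} (D : CoxData 2 r s) (hD : D.IsGood)
    (P : D.Presentation X) (hdim : 2 * s ≤ X.dim + 3) : X.alpha ≤ 1 := by
  have h1 := P.dim
  have hr : 0 < r := by omega
  obtain ⟨i, n, a, hn, hna, hsum⟩ := D.exists_two hD hr P.t P.ker (by omega)
  exact P.alpha_le_one hD i n a hn hna hsum

end Pool.Agent.Results.MP_ae084c_ag.ClassGroupRankTwo
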