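import Pool.Agent.Run7.h918.Alpha
import Pool.Agent.Run7.h918.VWall3

/-!
# The alpha invariant of smooth Fano complete intersections: degrees and index

Let `X = V(g_1, ..., g_s)^ss / H` be a smooth Fano complete intersection in homogeneous (Cox)
coordinates of a projective toric variety, of any Picard number and possibly singular, in arbitrary
position (the divisors need not be ample, nef, or meet special loci). If all but `k` of the classes of
the divisors are proportional to one of them, and `-K_X` is divisible by an integer `m > k`, then
`α(X) ≤ 1`. The case `k = 0` (no condition on the index) contains all hypersurfaces, hence all smooth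
Fano varieties whose Cox ring is a hypersurface; the case `k = s - 1` says that an index at least the
codimension suffices.
-/

set_option autoImplicit false

namespace Pool.Agent.Results.MP_ae084c_ag.DegreesAndIndex

open Pool.Agent.Helper774.KSing Pool.Agent.Run7.H918

/-- A smooth Fano complete intersection `X = V(g_1, ..., g_s)^ss / H`, `s ≥ 1`, in homogeneous
coordinates of a projective toric variety satisfies `α(X) ≤ 1` if all the classes `μ j`, `j ∉ K`, are
positive rational multiples of `μ j0` and the class `u` of `-K_X` is divisible by an integer
`m > |K|`. -/
theorem result (X : Variety) {ρ r s : ℕ} (D : CoxData ρ r s) (hD : D.IsGood)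
    (P : D.Presentation X) (j0 : Fin s) (K : Finset (Fin s))
    (hK : ∀ j, j ∉ K → ∃ p q : ℕ, 1 ≤ p ∧ 1 ≤ q ∧ p • D.μ j = q • D.μ j0)
    (m : ℕ) (hm : K.card < m) (u0 : Fin ρ → ℤ) (hu : D.u = m • u0) : X.alpha ≤ 1 := by
  have hr : 0 < r := by
    have h1 := P.dim
    have h2 := j0.pos
    omega
  obtain ⟨i, n, a, hn, hna, hsum⟩ := D.exists_index hD hr P.t P.ker j0 K hK m hm u0 hu
  exact P.alpha_le_one hD i n a hn hna hsum

end Pool.Agent.Results.MP_ae084c_ag.DegreesAndIndex
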