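import Pool.Agent.Run7.h918.Alpha

/-!
# The alpha invariant of smooth Fano complete intersections that meet an exceptional locus

Let `X` be a smooth Fano variety which is a complete intersection `V(g_1, ..., g_s)^ss / H` in
homogeneous (Cox) coordinates of a projective toric variety `Z`, of any Picard number and possibly
singular, and suppose that `X` meets the exceptional locus of an extremal contraction of `Z`. Then
`α(X) ≤ 1`.
-/

set_option autoImplicit false

namespace Pool.Agent.Results.MP_ae084c_ag.MeetsExceptional

open Pool.Agent.Helper774.KSing Pool.Agent.Run7.H918

/-- A smooth Fano complete intersection `X = V(g_1, ..., g_s)^ss / H` in a projective toric variety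
`Z`, in homogeneous coordinates, which meets the exceptional locus of an extremal contraction of `Z`
satisfies `α(X) ≤ 1`. (A variety with such a presentation is automatically smooth, and `-K_X` is the
ample class `u`.) -/
theorem result (X : Variety) {ρ r s : ℕ} (D : CoxData ρ r s) (hD : D.IsGood)
    (P : D.Presentation X) (hmeet : D.MeetsExceptionalLocus) : X.alpha ≤ 1 := by
  obtain ⟨x, hx, φ, hφ, h1, h2⟩ := hmeet
  obtain ⟨i, m, a, hm, hma, hsum⟩ := D.exists_gen hD x hx φ hφ h1 h2
  exact P.alpha_le_one hD i m a hm hma hsum

end Pool.Agent.Results.MP_ae084c_ag.MeetsExceptional
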